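import Pool.Agent.Helper57.NX3.Defs
import Pool.Agent.Helper61.NX.PatB

/-! # Project NX2, C11: the lattice refinement, lower bound for one `k`, mixed positions -/

set_option autoImplicit false

open Finset
open scoped BigOperators

namespace Pool.Agent.Helper57.NX3

noncomputable section

open Pool.Agent.Helper57.NX

private lemma lm_val {A' : Finset ℕ} {Q Z N : ℕ} [NeZero N]
    (hN : Q * (2 * Z) ≤ N) (hA : ∀ p ∈ A', p < Z) {p e : ℕ} (hp : p ∈ A') (he : e < Q) :
    ((Q * p + e : ℕ) : ZMod N).val = Q * p + e := by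
  refine ZMod.val_natCast_of_lt ?_
  have h1 := hA p hp
  have h2 : Q * (p + 1) ≤ Q * Z := Nat.mul_le_mul_left Q h1
  rw [Nat.mul_succ] at h2
  have h3 : Q * (2 * Z) = Q * Z + Q * Z := by ring
  omega

private lemma lm_range (A' : Finset ℕ) {x y m n : ℕ} (h1 : y ≤ x) (h2 : x + m ≤ y + n) :
    ∑ w ∈ range m, ind A' (x + w) ≤ ∑ w ∈ range n, ind A' (y + w) := by
  have h3 : ∑ w ∈ range m, ind A' (x + w) = ∑ w ∈ Ico x (x + m), ind A' w := by
    rw [Finset.sum_Ico_eq_sum_range, Nat.add_sub_cancel_left]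
  have h4 : ∑ w ∈ range n, ind A' (y + w) = ∑ w ∈ Ico y (y + n), ind A' w := by
    rw [Finset.sum_Ico_eq_sum_range, Nat.add_sub_cancel_left]
  rw [h3, h4]
  exact Finset.sum_le_sum_of_subset_of_nonneg (Finset.Ico_subset_Ico h1 h2)
    fun _ _ _ => ind_nonneg _ _

/-! ## C11 the lattice refinement, one `k`: lower bound -/
open Pool.Agent.Helper57.NX in
theorem lower_mixed {l : ℕ} (A' : Finset ℕ) (Q Z N : ℕ) [NeZero N] (η : ℝ) (hQ : 0 < Q)
    (hN : Q * (2 * Z) ≤ N) (hA : ∀ p ∈ A', p < Z) (hη0 : 0 ≤ η) (hη1 : η ≤ 1)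
    (nat : Fin l → Prop) [DecidablePred nat] (a B B' v : Fin l → ℕ)
    (hnat : ∀ i, nat i → a i = Q * v i)
    (hreal : ∀ i, ¬ nat i → ∀ e < Q, (e + a i) / Q + 1 ≤ v i ∧
      v i + B' i ≤ (e + a i) / Q + 1 + B i)
    (ha : ∀ i, a i + Q * (B i + 1) ≤ Q * Z) :
    η * Q * ∑ p ∈ A', ∏ i, (if nat i then ind A' (p + v i) else
        (∑ w ∈ range (B' i), ind A' (p + v i + w)) / ((B i : ℝ) + 1)) ≤
      ∑ y : ZMod N, g0A A' Q η y * ∏ i, (if nat i then gA A' Q (y + (a i : ZMod N)) else
        AR (Q * (B i + 1)) (gA A' Q) (y + (a i : ZMod N))) := by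
  classical
  set E := (range Q).filter fun e : ℕ => (e : ℝ) < η * Q with hE
  have hQ0 : (0 : ℝ) < Q := by exact_mod_cast hQ
  set R : ZMod N → ℝ := fun y => g0A A' Q η y *
    ∏ i, (if nat i then gA A' Q (y + (a i : ZMod N)) else
        AR (Q * (B i + 1)) (gA A' Q) (y + (a i : ZMod N))) with hR
  have hR0 : ∀ y, 0 ≤ R y := by
    intro y
    refine mul_nonneg (g0A_nonneg _ _ _ _) (Finset.prod_nonneg fun i _ => ?_)
    split_ifs
    · exact gA_nonneg A' Q _
    · exact AR_nonneg _ (gA_nonneg A' Q) _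
  set T : ℕ → ℝ := fun p => ∏ i, (if nat i then ind A' (p + v i) else
        (∑ w ∈ range (B' i), ind A' (p + v i + w)) / ((B i : ℝ) + 1)) with hT
  have hT0 : ∀ p, 0 ≤ T p := by
    intro p
    refine Finset.prod_nonneg fun i _ => ?_
    split_ifs
    · exact ind_nonneg _ _
    · exact div_nonneg (Finset.sum_nonneg fun w _ => ind_nonneg _ _) (by positivity)
  -- restrict to the image of `(p, e)`
  have h1 : ∑ pe ∈ A' ×ˢ E, R ((Q * pe.1 + pe.2 : ℕ) : ZMod N) ≤ ∑ y : ZMod N, R y := by
    rw [← Finset.sum_image (s := A' ×ˢ E)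
      (g := fun pe : ℕ × ℕ => ((Q * pe.1 + pe.2 : ℕ) : ZMod N)) (f := R)]
    · exact Finset.sum_le_sum_of_subset_of_nonneg (Finset.subset_univ _) fun y _ _ => hR0 y
    · rintro ⟨p, e⟩ hpe ⟨p', e'⟩ hpe' h2
      rw [Finset.mem_coe, Finset.mem_product, hE, Finset.mem_filter, Finset.mem_range] at hpe hpe'
      have h3 := congrArg ZMod.val h2
      simp only at h3
      rw [lm_val hN hA hpe.1 hpe.2.1, lm_val hN hA hpe'.1 hpe'.2.1] at h3
      obtain ⟨rfl, rfl⟩ := block_inj Q hQ hpe.2.1 hpe'.2.1 h3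
      rfl
  refine le_trans ?_ h1
  have h2 : ∀ e ∈ E, ∀ p ∈ A', T p ≤ R ((Q * p + e : ℕ) : ZMod N) := by
    intro e he p hp
    rw [hE, Finset.mem_filter, Finset.mem_range] at he
    have hv := lm_val hN hA hp he.1
    have h4 : g0A A' Q η ((Q * p + e : ℕ) : ZMod N) = 1 := by
      unfold g0A
      rw [hv, Nat.mul_add_mod, Nat.mod_eq_of_lt he.1, if_pos he.2, Nat.mul_add_div hQ,
        Nat.div_eq_of_lt he.1, add_zero]
      exact if_pos hp
    simp only [hT, hR]
    rw [h4, one_mul]
    have hroom : ∀ i, Q * p + e + a i + Q * (B i + 1) ≤ N := by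
      intro i
      have h7 := hA p hp
      have h8 : Q * (p + 1) ≤ Q * Z := Nat.mul_le_mul_left Q h7
      rw [Nat.mul_succ] at h8
      have h9 : Q * (2 * Z) = Q * Z + Q * Z := by ring
      have := ha i
      have := he.1
      omega
    refine Finset.prod_le_prod (fun i _ => ?_) fun i _ => ?_
    · split_ifs
      · exact ind_nonneg _ _
      · exact div_nonneg (Finset.sum_nonneg fun w _ => ind_nonneg _ _) (by positivity)
    · by_cases hi : nat i
      · rw [if_pos hi, if_pos hi]
        refine le_of_eq ?_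
        unfold gA
        have hroom' : Q * p + e + a i < N := by
          have h7 := hroom i
          have h8 : 0 < Q * (B i + 1) := Nat.mul_pos hQ (Nat.succ_pos _)
          omega
        rw [val_add_nat _ (a i) (by rw [hv]; exact hroom'), hv]
        congr 1
        rw [hnat i hi, show Q * p + e + Q * v i = Q * (p + v i) + e by ring,
          Nat.mul_add_div hQ, Nat.div_eq_of_lt he.1, add_zero]
      · rw [if_neg hi, if_neg hi]
        have h6 := AR_gA_ge A' Q (B i) hQ ((Q * p + e : ℕ) : ZMod N) (a i) (by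
          rw [hv]
          exact hroom i)
        refine le_trans ?_ h6
        refine div_le_div_of_nonneg_right ?_ (by positivity)
        rw [hv]
        have h10 : (Q * p + e + a i) / Q = p + (e + a i) / Q := by
          rw [show Q * p + e + a i = Q * p + (e + a i) by ring, Nat.mul_add_div hQ]
        rw [h10]
        obtain ⟨h11, h12⟩ := hreal i hi e he.1
        exact lm_range A' (by omega) (by omega)
  have h3 : η * Q ≤ (E.card : ℝ) := by
    have h4 : E = range ⌈η * Q⌉₊ := by
      rw [hE]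
      ext e
      rw [Finset.mem_filter, Finset.mem_range, Finset.mem_range, Nat.lt_ceil]
      constructor
      · exact fun h => h.2
      · intro h
        refine ⟨?_, h⟩
        have : (e : ℝ) < Q := by nlinarith
        exact_mod_cast this
    rw [h4, Finset.card_range]
    exact Nat.le_ceil _
  rw [Finset.sum_product_right]
  calc η * Q * ∑ p ∈ A', T p ≤ E.card * ∑ p ∈ A', T p :=
        mul_le_mul_of_nonneg_right h3 (Finset.sum_nonneg fun p _ => hT0 p)
    _ = ∑ _e ∈ E, ∑ p ∈ A', T p := by rw [Finset.sum_const, nsmul_eq_mul]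
    _ ≤ _ := Finset.sum_le_sum fun e he => Finset.sum_le_sum fun p hp => h2 e he p hp

end

end Pool.Agent.Helper57.NX3
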